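import Pool.Agent.helper53.SP4.Spec

/-!
# SP4, row S4E: the theorem for `PSp(4, 2^f)`
-/

set_option autoImplicit false

namespace Pool.Agent.SP4

open Pool.Agent.GS

/-- transport of `CSet` along an isomorphism -/
theorem S4E_transport {S T : Type} [Group S] [Group T] (Φ : S ≃* T) (r k : ℕ) (x' : MulAut S) (x : MulAut T)
    (hx : ∀ t, Φ (x' t) = x (Φ t)) (h : k ∈ CSet r x') : k ∈ CSet r x := by
  obtain ⟨hk, g, hg, hr⟩ := h
  obtain ⟨Ψ, hΨ⟩ : ∃ Ψ : MulAut S ≃* MulAut T, ∀ a s, Ψ a s = Φ (a (Φ.symm s)) := ⟨MulAut.congr Φ, fun _ _ => rfl⟩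
  have hΨx : Ψ x' = x := by
    ext s
    rw [hΨ, hx, Φ.apply_symm_apply]
  have hΨc : ∀ t, Ψ (MulAut.conj t) = MulAut.conj (Φ t) := by
    intro t
    ext s
    rw [hΨ, MulAut.conj_apply, MulAut.conj_apply, map_mul, map_mul, Φ.apply_symm_apply, map_inv]
  refine ⟨hk, fun i => Ψ (g i), fun i => ?_, ?_⟩
  · have h1 : Ψ (g i) ∈ (Subgroup.closure (insert x' (Set.range (MulAut.conj : S →* MulAut S)))).map Ψ.toMonoidHom :=
      Subgroup.mem_map_of_mem Ψ.toMonoidHom (hg i)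
    rw [MonoidHom.map_closure] at h1
    refine (Subgroup.closure_mono ?_) h1
    rintro y ⟨a, ha, rfl⟩
    rcases ha with rfl | ⟨t, rfl⟩
    · exact Or.inl hΨx
    · exact Or.inr ⟨Φ t, (hΨc t).symm⟩
  · have h2 : Subgroup.closure (Set.range fun i => Ψ (g i) * x * (Ψ (g i))⁻¹) =
        (Subgroup.closure (Set.range fun i => g i * x' * (g i)⁻¹)).map Ψ.toMonoidHom := by
      rw [MonoidHom.map_closure, ← Set.range_comp]
      congr 2
      funext i
      show Ψ (g i) * x * (Ψ (g i))⁻¹ = Ψ (g i * x' * (g i)⁻¹)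
      rw [map_mul, map_mul, map_inv, hΨx]
    rw [h2]
    have h3 : Nat.card ((Subgroup.closure (Set.range fun i => g i * x' * (g i)⁻¹)).map Ψ.toMonoidHom) =
        Nat.card (Subgroup.closure (Set.range fun i => g i * x' * (g i)⁻¹)) :=
      Nat.card_congr (Subgroup.equivMapOfInjective _ Ψ.toMonoidHom Ψ.injective).toEquiv.symm
    rw [h3]
    exact hr

theorem S4E (hS4G : S4G_stmt) (hS43 : S43_stmt) (hS45 : S45_stmt) (hS4D : S4D_stmt) (hS4T : S4T_stmt) : S4E_stmt := by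
  intro F _ _ _ hGS x hx hxx r hr hr2 hrd
  obtain ⟨Φ, hΦ⟩ := hS4T F
  obtain ⟨x', hx'⟩ : ∃ x' : MulAut (SG F), ∀ t, Φ (x' t) = x (Φ t) :=
    ⟨(Φ.trans x).trans Φ.symm, fun t => Φ.apply_symm_apply _⟩
  have hSw : Sw x' := by
    obtain ⟨s, hs, hns⟩ := hx
    have e : Φ (Φ.symm s) = s := Φ.apply_symm_apply s
    obtain ⟨v, hv, hvt⟩ := (hΦ (Φ.symm s)).2 (by rw [e]; exact hs)
    refine ⟨v, Φ.symm s, hv, hvt, fun w hw => ?_⟩
    by_cases hw0 : w = 0
    · have h1 : x' (Φ.symm s) = 1 := by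
        apply Subtype.ext
        refine LinearEquiv.ext fun u => ?_
        rw [hw u, hw0]
        simp
      have h2 : x s = 1 := by
        rw [← e, ← hx', h1, map_one]
      have h3 : s = 1 := by
        rw [← map_one x] at h2
        exact x.injective h2
      exact hns (by rw [h2, ← h3]; exact hs)
    · exact hns (by rw [← e, ← hx']; exact (hΦ _).1 ⟨w, hw0, hw⟩)
  have hcard : Nat.card (SG F) = Nat.card (PSp 2 F) := Nat.card_congr Φ.toEquiv
  have hd := hS4D F r hr hr2 (by rw [hcard]; exact hrd)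
  have h4 : 4 ∈ CSet r x := S4E_transport Φ r 4 x' x hx' (hS45 F x' hSw r hr hr2 hd)
  have hne : (CSet r x).Nonempty := ⟨4, h4⟩
  refine ⟨sInf (CSet r x), ⟨Nat.sInf_mem hne, fun k hk => Nat.sInf_le hk⟩, Nat.sInf_le h4, ?_⟩
  split_ifs with h3
  · subst h3
    by_cases hx1 : x * x = 1
    · have h5 : x' * x' = 1 := by
        ext t : 1
        apply Φ.injective
        show Φ (x' (x' t)) = Φ t
        rw [hx', hx']
        have h6 : (x * x) (Φ t) = Φ t := by rw [hx1]; rfl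
        exact h6
      exact Nat.sInf_le (S4E_transport Φ 3 3 x' x hx' (hS43 F x' hSw h5))
    · obtain ⟨β, hβ, hβ2, -⟩ := hGS (x * x) (hxx.resolve_left hx1) hx1 3 hr hr2 hrd
      have h6 : β ∈ CSet 3 (x ^ 2) := by
        rw [pow_two]
        exact hβ.1
      have h7 := (hS4G (PSp 2 F) x 3 β).2.2 2 h6
      have h8 := Nat.sInf_le h7
      omega
  · have h5 : 4 ≤ r - 1 := by
      have h6 := hr.two_le
      have h7 : r ≠ 4 := by
        rintro rfl
        exact absurd hr (by norm_num)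
      omega
    exact (Nat.sInf_le h4).trans h5

end Pool.Agent.SP4
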